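import Pool.Agent.QEP.Stmts

/-!
# MP_dc0713_gt, squad QEP, row GLI (helper20): the sums `gg`
-/

set_option autoImplicit false

namespace Pool.Agent.QEP.H20

open Finset

theorem geo (n K : ℕ) (h : n ≤ K) :
    ∑ k ∈ Ico n K, 2 * (9 : ℝ) ^ n / 9 ^ k = 9 / 4 * (1 - 9 ^ n / 9 ^ K) := by
  induction K, h using Nat.le_induction with
  | base =>
    rw [Ico_self, sum_empty, div_self (by positivity)]
    ring
  | succ K h ih =>
    rw [sum_Ico_succ_top h, ih, pow_succ]
    have h9 : (9 : ℝ) ^ K ≠ 0 := by positivity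
    field_simp
    ring

theorem gli (hVLI : VLIStmt) : GLIStmt := by
  obtain ⟨h1, h2, -, -⟩ := hVLI
  refine ⟨?_, ?_⟩
  · intro P K l l' i hl hK
    unfold gg
    rw [← sum_Ico_consecutive _ hl hK]
    have h3 : ∑ k ∈ Ico l l', vv P k i + ∑ k ∈ Ico l' K, vv P k i - ∑ k ∈ Ico l' K, vv P k i =
        ∑ k ∈ Ico l l', vv P k i := by ring
    rw [h3]
    refine (abs_sum_le_sum_abs _ _).trans ((sum_le_sum fun k _ => h1 P k i).trans ?_)
    rw [sum_const, Nat.card_Ico, nsmul_eq_mul, mul_one, Nat.cast_sub hl]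
  · intro P K l n i j hl hij
    unfold gg
    rw [← sum_sub_distrib]
    have ht : ∀ k, |vv P k i - vv P k j| ≤ 2 := by
      intro k
      have ha := h1 P k i
      have hb := h1 P k j
      rw [abs_le] at ha hb ⊢
      constructor <;> linarith [ha.1, ha.2, hb.1, hb.2]
    have hu : ∀ k, |vv P k i - vv P k j| ≤ 2 * (9 : ℝ) ^ n / 9 ^ k := by
      intro k
      refine (h2 P k i j).trans ?_
      apply div_le_div_of_nonneg_right _ (by positivity)
      linarith
    have hc : ∀ a b : ℕ, a ≤ b → |∑ k ∈ Ico a b, (vv P k i - vv P k j)| ≤ 2 * ((b : ℝ) - a) := by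
      intro a b hab
      refine (abs_sum_le_sum_abs _ _).trans ((sum_le_sum fun k _ => ht k).trans ?_)
      rw [sum_const, Nat.card_Ico, nsmul_eq_mul, Nat.cast_sub hab]
      linarith
    rcases le_total K n with hK | hK
    · rcases le_total l K with hlK | hlK
      · have h4 := hc l K hlK
        have h5 : (K : ℝ) ≤ n := by exact_mod_cast hK
        linarith
      · rw [Ico_eq_empty_of_le hlK, sum_empty, abs_zero]
        have h5 : (l : ℝ) ≤ n := by exact_mod_cast hl
        linarith
    · rw [← sum_Ico_consecutive _ hl hK]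
      have h4 := hc l n hl
      have h5 : |∑ k ∈ Ico n K, (vv P k i - vv P k j)| ≤ 9 / 4 := by
        refine (abs_sum_le_sum_abs _ _).trans ((sum_le_sum fun k _ => hu k).trans ?_)
        rw [geo n K hK]
        have h6 : 0 ≤ (9 : ℝ) ^ n / 9 ^ K := by positivity
        linarith
      refine (abs_add_le _ _).trans ?_
      linarith

end Pool.Agent.QEP.H20
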